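import Pool.Agent.W223.AK.Defs

/-! Combinatorial Cauchy-Schwarz inequality. -/

set_option autoImplicit false

namespace Pool.Agent.W375.AK

open Finset Pool.Agent.W223.AK

lemma half {α β : Type} [DecidableEq α] [DecidableEq β] (R : Finset (α × β))
    (SA : Finset (α × α)) (SB : Finset (β × β))
    (hB : ∀ p ∈ R, ∀ p' ∈ R, p.1 = p'.1 → (p.2, p'.2) ∈ SB) :
    ∑ p ∈ R, ((SA.filter fun s => s.1 = p.1).card : ℝ) / (SB.filter fun s => s.1 = p.2).card ≤
      SA.card := by
  have h1 : ∀ p ∈ R, (R.filter fun s => s.1 = p.1).card ≤ (SB.filter fun s => s.1 = p.2).card := by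
    intro p hp
    refine card_le_card_of_injOn (fun s => (p.2, s.2)) ?_ ?_
    · intro s hs
      rw [mem_coe, mem_filter] at hs
      rw [mem_coe, mem_filter]
      exact ⟨hB p hp s hs.1 hs.2.symm, rfl⟩
    · intro s hs t ht hst
      rw [mem_coe, mem_filter] at hs ht
      simp only [Prod.mk.injEq, true_and] at hst
      exact Prod.ext (hs.2.trans ht.2.symm) hst
  have h0 : ∀ p ∈ R, 0 < (R.filter fun s => s.1 = p.1).card := fun p hp =>
    card_pos.mpr ⟨p, mem_filter.mpr ⟨hp, rfl⟩⟩
  calc ∑ p ∈ R, ((SA.filter fun s => s.1 = p.1).card : ℝ) / (SB.filter fun s => s.1 = p.2).card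
      ≤ ∑ p ∈ R, ((SA.filter fun s => s.1 = p.1).card : ℝ) / (R.filter fun s => s.1 = p.1).card := by
        refine sum_le_sum fun p hp => ?_
        have := h0 p hp
        have := h1 p hp
        gcongr
    _ = ∑ a ∈ R.image Prod.fst, ∑ p ∈ R.filter (fun p => p.1 = a),
          ((SA.filter fun s => s.1 = p.1).card : ℝ) / (R.filter fun s => s.1 = p.1).card :=
        (sum_fiberwise_of_maps_to (fun p hp => mem_image_of_mem _ hp) _).symm
    _ = ∑ a ∈ R.image Prod.fst, ((SA.filter fun s => s.1 = a).card : ℝ) := by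
        refine sum_congr rfl fun a ha => ?_
        have h2 : ∀ p ∈ R.filter (fun p => p.1 = a),
            ((SA.filter fun s => s.1 = p.1).card : ℝ) / (R.filter fun s => s.1 = p.1).card =
            ((SA.filter fun s => s.1 = a).card : ℝ) / (R.filter fun s => s.1 = a).card := by
          intro p hp
          rw [mem_filter] at hp
          rw [hp.2]
        rw [sum_congr rfl h2, sum_const, nsmul_eq_mul]
        obtain ⟨p, hp, hpa⟩ := mem_image.mp ha
        have h3 := h0 p hp
        rw [hpa] at h3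
        have h4 : ((R.filter fun s => s.1 = a).card : ℝ) ≠ 0 := by exact_mod_cast h3.ne'
        field_simp
    _ ≤ SA.card := by
        rw [← Nat.cast_sum, Nat.cast_le, ← card_biUnion]
        · exact card_le_card (biUnion_subset.mpr fun a _ => filter_subset _ _)
        · intro a _ b _ hab
          rw [Function.onFun, disjoint_left]
          intro s hs hs'
          rw [mem_filter] at hs hs'
          exact hab (hs.2.symm.trans hs'.2)

theorem cs : StmtCS := by
  classical
  intro α β R SA SB hA hB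
  set EA : α × β → ℝ := fun p => ((SA.filter fun s => s.1 = p.1).card : ℝ) with hEA
  set EB : α × β → ℝ := fun p => ((SB.filter fun s => s.1 = p.2).card : ℝ) with hEB
  have pA : ∀ p ∈ R, 0 < EA p := fun p hp => by
    have : 0 < (SA.filter fun s => s.1 = p.1).card :=
      card_pos.mpr ⟨(p.1, p.1), mem_filter.mpr ⟨hA p hp p hp rfl, rfl⟩⟩
    simp only [hEA]
    exact_mod_cast this
  have pB : ∀ p ∈ R, 0 < EB p := fun p hp => by
    have : 0 < (SB.filter fun s => s.1 = p.2).card :=
      card_pos.mpr ⟨(p.2, p.2), mem_filter.mpr ⟨hB p hp p hp rfl, rfl⟩⟩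
    simp only [hEB]
    exact_mod_cast this
  have i1 : ∑ p ∈ R, EA p / EB p ≤ SA.card := half R SA SB hB
  have i2 : ∑ p ∈ R, EB p / EA p ≤ SB.card := by
    have h := half (R.map (Equiv.prodComm α β).toEmbedding) SB SA ?_
    · rw [sum_map] at h
      exact h
    · intro p hp p' hp' hpp
      rw [mem_map] at hp hp'
      obtain ⟨s, hs, rfl⟩ := hp
      obtain ⟨t, ht, rfl⟩ := hp'
      exact hA s hs t ht hpp
  have key := sum_mul_sq_le_sq_mul_sq R (fun p => √(EA p / EB p)) (fun p => √(EB p / EA p))
  have h1 : ∑ p ∈ R, √(EA p / EB p) * √(EB p / EA p) = (R.card : ℝ) := by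
    rw [card_eq_sum_ones, Nat.cast_sum]
    refine sum_congr rfl fun p hp => ?_
    have a1 := pA p hp
    have a2 := pB p hp
    rw [← Real.sqrt_mul (by positivity)]
    have : EA p / EB p * (EB p / EA p) = 1 := by field_simp
    rw [this]
    simp
  have h2 : ∑ p ∈ R, √(EA p / EB p) ^ 2 = ∑ p ∈ R, EA p / EB p := by
    refine sum_congr rfl fun p hp => ?_
    have a1 := pA p hp
    have a2 := pB p hp
    exact Real.sq_sqrt (by positivity)
  have h3 : ∑ p ∈ R, √(EB p / EA p) ^ 2 = ∑ p ∈ R, EB p / EA p := by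
    refine sum_congr rfl fun p hp => ?_
    have a1 := pA p hp
    have a2 := pB p hp
    exact Real.sq_sqrt (by positivity)
  rw [h1, h2, h3] at key
  refine key.trans ?_
  have n1 : 0 ≤ ∑ p ∈ R, EA p / EB p := sum_nonneg fun p hp =>
    div_nonneg (pA p hp).le (pB p hp).le
  exact mul_le_mul i1 i2 (sum_nonneg fun p hp => div_nonneg (pB p hp).le (pA p hp).le)
    (Nat.cast_nonneg _)

end Pool.Agent.W375.AK
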